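import Mathlib

namespace Pool.Agent.Results.MP_bebd57_nt.OddBases

/-- the `b`-elated function: leading digit times the sum of the squares of the digits
(`Nat.digits` lists the base-`b` digits from the last one to the leading one) -/
def E (b x : ℕ) : ℕ := (Nat.digits b x).getLastD 0 * ((Nat.digits b x).map (fun d => d ^ 2)).sum

lemma sq_par : ∀ l : List ℕ, (l.map (fun d => d ^ 2)).sum % 2 = l.sum % 2
  | [] => rfl
  | a :: l => by
    have ih := sq_par l
    have h : a ^ 2 % 2 = a % 2 := by
      rcases Nat.mod_two_eq_zero_or_one a with h | h <;> simp [Nat.pow_mod, h]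
    simp only [List.map_cons, List.sum_cons]
    omega

lemma even_step {b x : ℕ} (hb : b % 2 = 1) (hx : 2 ∣ x) : 2 ∣ E b x := by
  have h1 : x % 2 = (Nat.digits b x).sum % 2 := Nat.modEq_digits_sum 2 b hb x
  have h2 := sq_par (Nat.digits b x)
  exact Dvd.dvd.mul_left (by omega) _

lemma fixed {b x : ℕ} (h : E b x = x) (h1 : 1 < x) : ∃ x, 0 < x ∧ ∀ n, (E b)^[n] x ≠ 1 :=
  ⟨x, by omega, fun n => by rw [Function.iterate_fixed h]; omega⟩

theorem result (b : ℕ) (hb : 2 < b)
    (h : Odd b ∨ ∃ a k, b + k = a ^ 2 * (1 + k ^ 2)) :
    ∃ x, 0 < x ∧ ∀ n, (E b)^[n] x ≠ 1 := by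
  rcases h with h | ⟨a, k, h⟩
  · refine ⟨2, by norm_num, fun n => ?_⟩
    have : 2 ∣ (E b)^[n] 2 := by
      induction n with
      | zero => simp
      | succ n ih =>
        rw [Function.iterate_succ_apply']
        exact even_step (Nat.odd_iff.1 h) ih
    omega
  · have ha : 1 ≤ a := by
      rcases Nat.eq_zero_or_pos a with h0 | h0
      · subst h0
        simp at h
        omega
      · exact h0
    have hk : k ≤ a * k := Nat.le_mul_of_pos_left k ha
    have h' : b + k = a * a + (a * k) * (a * k) := by rw [h]; ring
    have hab : a < b := by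
      generalize a * k = t at *
      have := Nat.le_mul_self t
      by_contra hh
      have h3 : 3 * a ≤ a * a := Nat.mul_le_mul_right a (by omega)
      omega
    have hc : a * k < b := by
      generalize a * k = t at *
      nlinarith
    refine fixed (x := a * k + b * a) ?_ (by nlinarith)
    unfold E
    rw [Nat.digits_add b (by omega) _ _ hc (Or.inr (by omega)),
      Nat.digits_of_lt b a (by omega) hab]
    simp only [List.getLastD_cons, List.getLastD_nil, List.map_cons, List.map_nil, List.sum_cons,
      List.sum_nil]
    have : a * k + b * a = a * (b + k) := by ring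
    rw [this, h]
    ring

end Pool.Agent.Results.MP_bebd57_nt.OddBases
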